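import Pool.Agent.K7.H32.Tw.Main

/-!
# The genus of the A-polynomial curves of the twist knots

`eigenvaluePairs p` is the set of the eigenvalue pairs `(L, M)` of `ρ(longitude)` and
`ρ(meridian)`, over all representations `ρ` of the group of the twist knot `K_p` in `SL₂(ℂ)` which
are upper triangular on the peripheral subgroup. Its closure is the curve
`(L - 1) A(L, M²) = 0` for an irreducible polynomial `A(L, m)`: up to a constant factor, `A(L, M²)`
is the A-polynomial of `K_p`, and `A(L, m)` is the polynomial `A_p(L, M^{1/2})` of the problem.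
`K` is the function field of the plane curve `A = 0`, and `genus K` is the dimension of the space of
regular differentials of the smooth projective curve with the function field `K`.
-/

open Pool.Agent.K7.H32.Tw (eigenvaluePairs)
open Pool.Agent.Helper395.CS (IsCurve genus)

namespace Pool.Agent.Results.MP_70fbba_gt.TwistKnotGenus

/-- The genus conjecture for the A-polynomial curves of the twist knots holds: for every `p ≠ 0` the
curve `A_p(L, M^{1/2}) = 0` has the genus `2 p - 2` if `p > 0` and `2 |p| - 1` if `p < 0`. -/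
theorem result (p : ℤ) (hp : p ≠ 0) : ∃ A : MvPolynomial (Fin 2) ℂ, Irreducible A ∧
    MvPolynomial.vanishingIdeal ℂ (eigenvaluePairs p) =
      Ideal.span {(MvPolynomial.X 0 - 1) *
        MvPolynomial.aeval ![MvPolynomial.X 0, MvPolynomial.X 1 ^ 2] A} ∧
    ∀ (K : Type) [Field K] [Algebra ℂ K] [Algebra (MvPolynomial (Fin 2) ℂ ⧸ Ideal.span {A}) K]
      [IsScalarTower ℂ (MvPolynomial (Fin 2) ℂ ⧸ Ideal.span {A}) K]
      [IsFractionRing (MvPolynomial (Fin 2) ℂ ⧸ Ideal.span {A}) K],
      IsCurve K ∧ (genus K : ℤ) = if 0 < p then 2 * p - 2 else 2 * |p| - 1 := by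
  obtain ⟨A, h1, h2, h3⟩ := Pool.Agent.K7.H32.Tw.main hp
  refine ⟨A, h1, h2, ?_⟩
  intro K _ _ _ _ _
  obtain ⟨h4, h5⟩ := h3 K
  refine ⟨h4, ?_⟩
  rw [h5, Pool.Agent.K7.H32.Tw.genusValue]
  split_ifs with h
  · omega
  · rw [abs_of_neg (by omega)]
    omega

end Pool.Agent.Results.MP_70fbba_gt.TwistKnotGenus
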